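import Pool.Agent.W2helper8.AF.Stm

/-!
# Project AF (MP_a320f3_co), piece ESTEP

The induction step for the extremal sets, from the pieces CLASSIFY, ASM and SWAP.
-/

set_option autoImplicit false

namespace Pool.Agent.W2helper11.AF

open Finset
open scoped Classical
open Pool.Agent.W2helper8.AF

universe u

theorem p_estep (h1 : ClassifyStm.{u}) (h2 : AsmStm.{u}) (h3 : SwapStm.{u}) :
    EStepStm.{u} := by
  intro V G n q hn hq hR hE W hW hWc hWS
  -- every vertex has at most `q + 1` nonneighbours
  have hnb : ∀ x ∈ W, (nb G W x).card ≤ q + 1 := by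
    intro x hx
    have hc : (W.erase x).card = n * (q + 1) := by
      rw [Finset.card_erase_of_mem hx, hWc]; simp
    have hR' := hR (W.erase x) (hW.mono (Finset.erase_subset x W)) hc q (n - 1) (by omega) (by
      rw [mul_add, mul_one]; omega)
    have hSe := S_erase G hx
    rw [hWS] at hSe
    obtain ⟨m, rfl⟩ : ∃ m, n = m + 1 := ⟨n - 1, by omega⟩
    simp only [Nat.add_sub_cancel] at hR'
    nlinarith
  set A := W.filter fun x => (nb G W x).card = q + 1 with hA
  have hAW : A ⊆ W := filter_subset _ _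
  have hAc : n * (q + 1) < A.card + (q + 1) := by
    have e1 : S G W = ∑ x ∈ W \ A, (nb G W x).card + ∑ x ∈ A, (nb G W x).card := by
      rw [S]; exact (Finset.sum_sdiff hAW).symm
    have e2 : ∑ x ∈ A, (nb G W x).card = A.card * (q + 1) :=
      Finset.sum_const_nat fun x hx => (mem_filter.1 hx).2
    have e3 : ∑ x ∈ W \ A, (nb G W x).card ≤ (W \ A).card * q := by
      rw [← smul_eq_mul]
      refine Finset.sum_le_card_nsmul _ _ _ ?_
      intro x hx
      obtain ⟨a, b⟩ := mem_sdiff.1 hx
      have := hnb x a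
      have hne : (nb G W x).card ≠ q + 1 := fun h => b (mem_filter.2 ⟨a, h⟩)
      omega
    have e4 : (W \ A).card + A.card = W.card := by
      rw [Finset.card_sdiff_of_subset hAW]
      have := Finset.card_le_card hAW
      omega
    rw [hWc] at e4
    rw [hWS, e2] at e1
    nlinarith
  obtain ⟨U, hUA, hU⟩ := greedy n A (fun x hx =>
    (Finset.card_le_card (nb_mono hAW x)).trans (hnb x (hAW hx))) hAc (by omega)
  have hUW : U ⊆ W := hUA.trans hAW
  have hUc : U.card = n := hU.2
  set Y := W \ U with hY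
  have hYc : Y.card = n * q + 1 := by
    rw [hY, Finset.card_sdiff_of_subset hUW, hWc, hUc, mul_add]
    omega
  have hYS : S G Y = 1 + n * q ^ 2 := by
    have e1 := S_sdiff G hUW
    have e2 : ∑ x ∈ U, (nb G W x).card = U.card * (q + 1) :=
      Finset.sum_const_nat fun x hx => (mem_filter.1 (hUA hx)).2
    rw [e2, hUc, hWS, S_clique hU.1, hUc] at e1
    rw [hY]
    nlinarith
  have hYU : Y ∪ U = W := Finset.sdiff_union_of_subset hUW
  have hYok : Ok G n Y := hW.mono (Finset.sdiff_subset)
  obtain ⟨c, hc⟩ := hE Y hYok hYc hYS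
  have hctx : Ctx G n q Y U := by
    refine ⟨hn, hq, Finset.sdiff_disjoint, by rw [hYU]; exact hW, hU, ?_, ?_⟩
    · intro w hw
      have e1 : nb G W w = insert w (nb G Y w) := by
        ext x
        simp only [mem_nb, mem_insert, hY, mem_sdiff]
        constructor
        · rintro ⟨a, b⟩
          by_cases hxw : x = w
          · exact Or.inl hxw
          · refine Or.inr ⟨⟨a, ?_⟩, b⟩
            intro hxU
            exact b (hU.1 (mem_coe.2 hw) (mem_coe.2 hxU) (fun h => hxw h.symm))
        · rintro (rfl | ⟨⟨a, _⟩, b⟩)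
          · exact ⟨hUW hw, G.irrefl⟩
          · exact ⟨a, b⟩
      have e2 : w ∉ nb G Y w := by
        intro h
        exact (mem_sdiff.1 (mem_nb.1 h).1).2 hw
      have e3 : (nb G W w).card = q + 1 := (mem_filter.1 (hUA hw)).2
      rw [e1, Finset.card_insert_of_notMem e2] at e3
      omega
    · rw [hYU]; exact hnb
  have hfin : ∀ c' : V → ℕ, Std G n q Y c' →
      (∀ w' ∈ U, ∀ z' y' i', ¬ TyC G n Y c' w' z' y' i') → ∃ c'' : V → ℕ, Std G n (q + 1) W c'' := by
    intro c' hc' hno
    obtain ⟨c'', h''⟩ := h2 G n q Y U c' hctx hc' (fun w hw => by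
      rcases h1 G n q Y U c' w hctx hc' hw with h | ⟨z, y, i, h⟩
      · exact h
      · exact absurd h (hno w hw z y i))
    rw [hYU] at h''
    exact ⟨c'', h''.std hn hWc hWS⟩
  by_cases hex : ∃ w ∈ U, ∃ z y i, TyC G n Y c w z y i
  · obtain ⟨w, hw, z, y, i, h⟩ := hex
    obtain ⟨c', hc', hno⟩ := h3 G n q Y U c w z y i hctx hc hw h
    exact hfin c' hc' hno
  · refine hfin c hc ?_
    intro w' hw' z' y' i' h
    exact hex ⟨w', hw', z', y', i', h⟩

end Pool.Agent.W2helper11.AF
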