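import Pool.Agent.W2helper8.AF.Stm

/-!
# Project AF (MP_a320f3_co), piece SWAP

The colouring with an exceptional vertex is changed so that no exceptional vertex is left.
-/

set_option autoImplicit false

namespace Pool.Agent.W2helper11.AF

open Finset
open scoped Classical
open Pool.Agent.W2helper8.AF

universe u

theorem S_indep {V : Type u} {G : SimpleGraph V} {K : Finset V}
    (h : ∀ x ∈ K, ∀ y ∈ K, ¬ G.Adj x y) : S G K = K.card ^ 2 := by
  rw [S, sq]
  rw [Finset.sum_const_nat]
  intro x hx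
  congr 1
  ext y
  simp only [mem_nb]
  exact ⟨fun a => a.1, fun a => ⟨a, h x hx y a⟩⟩

/-- the swapped colouring -/
noncomputable def sw {V : Type u} (c : V → ℕ) (z : V) (i : ℕ) (x : V) : ℕ :=
  if x = z then 0 else if c x = 0 then i else if c x = i then 0 else c x

theorem sw_z {V : Type u} (c : V → ℕ) (z : V) (i : ℕ) : sw c z i z = 0 := by
  simp [sw]

theorem sw_zero {V : Type u} {c : V → ℕ} {z : V} {i : ℕ} {x : V} (h : x ≠ z) (h0 : c x = 0) :
    sw c z i x = i := by
  simp [sw, h, h0]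

theorem sw_i {V : Type u} {c : V → ℕ} {z : V} {i : ℕ} {x : V} (hi : i ≠ 0)
    (hz : c z = 0) (h0 : c x = i) : sw c z i x = 0 := by
  have hx : x ≠ z := by rintro rfl; exact hi (h0 ▸ hz)
  simp [sw, hx, h0, hi]

theorem sw_other {V : Type u} {c : V → ℕ} {z : V} {i : ℕ} {x : V} 
    (hz : c z = 0) (h0 : c x ≠ 0) (h1 : c x ≠ i) : sw c z i x = c x := by
  have hx : x ≠ z := by rintro rfl; exact h0 hz
  simp [sw, hx, h0, h1]

/-- case distinction for the value -/
theorem sw_cases {V : Type u} (c : V → ℕ) (z : V) (i : ℕ) (hi : i ≠ 0) (hz : c z = 0) (x : V) :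
    (x = z ∧ c x = 0 ∧ sw c z i x = 0) ∨ (x ≠ z ∧ c x = 0 ∧ sw c z i x = i) ∨
    (x ≠ z ∧ c x = i ∧ sw c z i x = 0) ∨
    (x ≠ z ∧ c x ≠ 0 ∧ c x ≠ i ∧ sw c z i x = c x) := by
  by_cases h1 : x = z
  · subst h1; exact Or.inl ⟨rfl, hz, sw_z c x i⟩
  by_cases h2 : c x = 0
  · exact Or.inr (Or.inl ⟨h1, h2, sw_zero h1 h2⟩)
  by_cases h3 : c x = i
  · exact Or.inr (Or.inr (Or.inl ⟨h1, h3, sw_i hi hz h3⟩))
  · exact Or.inr (Or.inr (Or.inr ⟨h1, h2, h3, sw_other hz h2 h3⟩))

theorem p_swap : SwapStm.{u} := by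
  intro V G n q Y U c u z y i hctx hstd hu hty
  obtain ⟨hzY, hcz, hin, hi0, hyY, hcy, huy, huz, hK, hO, hT⟩ := hty
  obtain ⟨⟨h1, h2, h3, h4⟩, hST⟩ := hstd
  -- the vertex `z` is adjacent to the rest of the class `0`
  set T := Y.filter fun x => c x = 0 with hTdef
  have hzT : z ∈ T := mem_filter.2 ⟨hzY, hcz⟩
  have hn0 : 0 < n := hctx.hn
  have hTc : T.card = q + 1 := by
    have := h4 0 hn0
    simpa [hTdef] using this
  have hTe : S G (T.erase z) = q ^ 2 := by
    rw [S_indep, Finset.card_erase_of_mem hzT, hTc]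
    · simp
    · intro x hx x' hx'
      obtain ⟨hxz, hxT⟩ := mem_erase.1 hx
      obtain ⟨hxz', hxT'⟩ := mem_erase.1 hx'
      exact hT x (mem_filter.1 hxT).1 x' (mem_filter.1 hxT').1 (mem_filter.1 hxT).2
        (mem_filter.1 hxT').2 hxz hxz'
  have hnbz : (nb G T z).card = 1 := by
    have := S_erase G hzT
    rw [hTe, hST] at this
    omega
  have hzadj : ∀ x ∈ Y, c x = 0 → x ≠ z → G.Adj z x := by
    intro x hx hcx hxz
    by_contra hn
    have hsub : ({z, x} : Finset V) ⊆ nb G T z := by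
      intro t ht
      rcases mem_insert.1 ht with rfl | ht
      · exact self_mem_nb hzT
      · rw [mem_singleton.1 ht]
        exact mem_nb.2 ⟨mem_filter.2 ⟨hx, hcx⟩, hn⟩
    have := Finset.card_le_card hsub
    rw [Finset.card_pair hxz.symm, hnbz] at this
    omega
  have hcs := sw_cases c z i hi0 hcz
  -- the classes of the new colouring
  have hcl0 : (Y.filter fun x => sw c z i x = 0) = insert z (Y.filter fun x => c x = i) := by
    ext x
    simp only [mem_filter, mem_insert]
    rcases hcs x with ⟨rfl, a, b⟩ | ⟨a, b, d⟩ | ⟨a, b, d⟩ | ⟨a, b, d, e⟩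
    · simp [hzY, b]
    · simp [a, b, d, hi0, hi0.symm]
    · simp [a, b, d]
    · simp [a, b, d, e]
  have hcli : (Y.filter fun x => sw c z i x = i) = T.erase z := by
    ext x
    simp only [mem_filter, mem_erase, hTdef]
    rcases hcs x with ⟨rfl, a, b⟩ | ⟨a, b, d⟩ | ⟨a, b, d⟩ | ⟨a, b, d, e⟩
    · simp [b, hi0.symm]
    · simp [a, b, d]
    · simp [a, b, d, hi0, hi0.symm]
    · simp [a, b, d, e]
  have hclj : ∀ j, j ≠ 0 → j ≠ i → (Y.filter fun x => sw c z i x = j) =
      Y.filter fun x => c x = j := by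
    intro j hj0 hji
    ext x
    simp only [mem_filter]
    rcases hcs x with ⟨rfl, a, b⟩ | ⟨a, b, d⟩ | ⟨a, b, d⟩ | ⟨a, b, d, e⟩
    · simp [a, b, hj0.symm]
    · simp [a, b, d, hj0.symm, hji.symm]
    · simp [a, b, d, hj0.symm, hji.symm]
    · simp [a, b, d, e]
  have hzK : z ∉ Y.filter fun x => c x = i := by
    intro h
    exact hi0 ((mem_filter.1 h).2 ▸ hcz)
  have hKc : (Y.filter fun x => c x = i).card = q := by
    rw [h4 i hin, if_neg hi0]
  have hKind : ∀ x ∈ Y.filter (fun x => c x = i), ∀ x' ∈ Y.filter (fun x => c x = i),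
      ¬ G.Adj x x' := by
    intro x hx x' hx'
    obtain ⟨a, b⟩ := mem_filter.1 hx
    obtain ⟨a', b'⟩ := mem_filter.1 hx'
    exact h3 x a x' a' (b.trans b'.symm) (b ▸ hi0)
  have hstd4 : Std4 G n q Y (sw c z i) := by
    refine ⟨?_, ?_, ?_, ?_⟩
    · intro x hx
      rcases hcs x with ⟨rfl, a, b⟩ | ⟨a, b, d⟩ | ⟨a, b, d⟩ | ⟨a, b, d, e⟩
      · rw [b]; exact hn0
      · rw [d]; exact hin
      · rw [d]; exact hn0
      · rw [e]; exact h1 x hx
    · intro x hx x' hx' hne
      by_cases hcc : c x = c x'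
      · rcases hcs x with ⟨rfl, a, b⟩ | ⟨a, b, d⟩ | ⟨a, b, d⟩ | ⟨a, b, d, e⟩
        · have hx'z : x' ≠ x := by rintro rfl; exact hne rfl
          exact hzadj x' hx' (hcc ▸ a) hx'z
        · rcases hcs x' with ⟨rfl, a', b'⟩ | ⟨a', b', d'⟩ | ⟨a', b', d'⟩ | ⟨a', b', d', e'⟩
          · exact (hzadj x hx b a).symm
          · exact absurd (d.trans d'.symm) hne
          · exact absurd (hcc.symm.trans b) (b' ▸ hi0)
          · exact absurd (hcc.symm.trans b) b'
        · rcases hcs x' with ⟨rfl, a', b'⟩ | ⟨a', b', d'⟩ | ⟨a', b', d'⟩ | ⟨a', b', d', e'⟩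
          · exact absurd (b.symm.trans (hcc.trans a')) hi0
          · exact absurd (b.symm.trans (hcc.trans b')) hi0
          · exact absurd (d.trans d'.symm) hne
          · exact absurd (hcc.symm.trans b) d'
        · rcases hcs x' with ⟨rfl, a', b'⟩ | ⟨a', b', d'⟩ | ⟨a', b', d'⟩ | ⟨a', b', d', e'⟩
          · exact absurd (hcc.trans a') b
          · exact absurd (hcc.trans b') b
          · exact absurd (hcc.trans b') d
          · exact absurd (e.trans (hcc.trans e'.symm)) hne
      · exact h2 x hx x' hx' hcc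
    · intro x hx x' hx' heq hne0
      rcases hcs x with ⟨rfl, a, b⟩ | ⟨a, b, d⟩ | ⟨a, b, d⟩ | ⟨a, b, d, e⟩
      · exact absurd b hne0
      · rcases hcs x' with ⟨rfl, a', b'⟩ | ⟨a', b', d'⟩ | ⟨a', b', d'⟩ | ⟨a', b', d', e'⟩
        · exact absurd (heq.trans b') hne0
        · exact hT x hx x' hx' b b' a a'
        · exact absurd (heq.trans d') hne0
        · exact absurd (e'.symm.trans (heq.symm.trans d)) d'
      · exact absurd d hne0
      · rcases hcs x' with ⟨rfl, a', b'⟩ | ⟨a', b', d'⟩ | ⟨a', b', d'⟩ | ⟨a', b', d', e'⟩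
        · exact absurd (heq.trans b') hne0
        · exact absurd (e.symm.trans (heq.trans d')) d
        · exact absurd (heq.trans d') hne0
        · exact h3 x hx x' hx' (e.symm.trans (heq.trans e')) b
    · intro j hj
      by_cases hj0 : j = 0
      · subst hj0
        rw [if_pos rfl, hcl0, Finset.card_insert_of_notMem hzK, hKc]
      · rw [if_neg hj0]
        by_cases hji : j = i
        · subst hji
          rw [hcli, Finset.card_erase_of_mem hzT, hTc]
          simp
        · rw [hclj j hj0 hji, h4 j hj, if_neg hj0]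
  have hstd' : Std G n q Y (sw c z i) := by
    refine ⟨hstd4, ?_⟩
    rw [hcl0]
    set K := Y.filter fun x => c x = i with hKdef
    have hSK : S G K = q ^ 2 := by rw [S_indep hKind, hKc]
    have hnb : nb G (insert z K) z = {z} := by
      ext x
      simp only [mem_nb, mem_insert, mem_singleton]
      constructor
      · rintro ⟨rfl | hx, hn⟩
        · rfl
        · exfalso
          obtain ⟨a, b⟩ := mem_filter.1 hx
          exact hn (h2 z hzY x a (by rw [hcz, b]; exact hi0.symm))
      · rintro rfl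
        exact ⟨Or.inl rfl, G.irrefl⟩
    have := S_erase G (mem_insert_self z K)
    rw [Finset.erase_insert hzK, hSK, hnb, card_singleton] at this
    omega
  refine ⟨sw c z i, hstd', ?_⟩
  rintro u' hu' z' y' i' ⟨hzY', hcz', hin', hi0', hyY', hcy', huy', huz', hK', hO', hT'⟩
  obtain ⟨g1, g2, g3, g4⟩ := hstd4
  -- `u` is adjacent to everything of new colour `≠ 0`
  have huadj : ∀ x ∈ Y, sw c z i x ≠ 0 → G.Adj u x := by
    intro x hx hne
    rcases hcs x with ⟨rfl, a, b⟩ | ⟨a, b, d⟩ | ⟨a, b, d⟩ | ⟨a, b, d, e⟩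
    · exact absurd b hne
    · exact hO x hx (by rw [b]; exact hi0.symm) a
    · exact absurd d hne
    · exact hO x hx d a
  have hq := hctx.hq
  have hcardi' : (Y.filter fun x => sw c z i x = i').card = q := by
    rw [g4 i' hin', if_neg hi0']
  have huu' : u ≠ u' := by
    rintro rfl
    obtain ⟨x, hx, hxy⟩ : ∃ x ∈ Y.filter (fun x => sw c z i x = i'), x ≠ y' :=
      Finset.exists_mem_ne (by omega) y'
    obtain ⟨a, b⟩ := mem_filter.1 hx
    exact hK' x a b hxy (huadj x a (b ▸ hi0'))
  have hzz : z' = z := by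
    by_contra hne
    obtain ⟨x, hx, hxz⟩ : ∃ x ∈ Y.filter (fun x => c x = i), x ≠ z' :=
      Finset.exists_mem_ne (by omega) z'
    obtain ⟨a, b⟩ := mem_filter.1 hx
    exact hT' z hzY x a (sw_z c z i) (sw_i hi0 hcz b) (fun h => hne h.symm) hxz
      (h2 z hzY x a (by rw [hcz, b]; exact hi0.symm))
  subst hzz
  have hyz : y ≠ z' := by rintro rfl; exact hi0 (hcy ▸ hcz)
  have hsy : sw c z' i y = 0 := sw_i hi0 hcz hcy
  have hu'y : G.Adj u' y := hO' y hyY (by rw [hsy]; exact hi0'.symm) hyz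
  have huu'adj : G.Adj u u' := hctx.clq.1 (mem_coe.2 hu) (mem_coe.2 hu') huu'
  have huy'adj : G.Adj u y' := huadj y' hyY' (by rw [hcy']; exact hi0')
  have hyy' : G.Adj y y' := g2 y hyY y' hyY' (by rw [hsy, hcy']; exact hi0'.symm)
  have hcl : G.IsNClique 4 (insert u (insert u' (insert y {y'}))) := by
    have e1 : G.IsNClique 1 ({y'} : Finset V) := by simp [SimpleGraph.isNClique_iff]
    have e2 : G.IsNClique 2 (insert y {y'}) := e1.insert (by
      intro b hb; rw [mem_singleton.1 hb]; exact hyy')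
    have e3 : G.IsNClique 3 (insert u' (insert y {y'})) := e2.insert (by
      intro b hb
      rcases mem_insert.1 hb with rfl | hb
      · exact hu'y
      · rw [mem_singleton.1 hb]; exact huy')
    exact e3.insert (by
      intro b hb
      rcases mem_insert.1 hb with rfl | hb
      · exact huu'adj
      rcases mem_insert.1 hb with rfl | hb
      · exact huy
      · rw [mem_singleton.1 hb]; exact huy'adj)
  have hr : ∀ j, ∃ x, j ∈ (Finset.Ico 1 n).erase i' → x ∈ Y ∧ sw c z' i x = j := by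
    intro j
    by_cases hj : j ∈ (Finset.Ico 1 n).erase i'
    · obtain ⟨_, hj2⟩ := mem_erase.1 hj
      obtain ⟨hj3, hj4⟩ := Finset.mem_Ico.1 hj2
      have hcard := g4 j hj4
      rw [if_neg (by omega)] at hcard
      obtain ⟨x, hx⟩ : (Y.filter fun x => sw c z' i x = j).Nonempty := by
        rw [← Finset.card_pos]; omega
      exact ⟨x, fun _ => mem_filter.1 hx⟩
    · exact ⟨y, fun h => absurd h hj⟩
  choose r hr using hr
  obtain ⟨s, hs, hs'⟩ := clique_of_reps hcl ((Finset.Ico 1 n).erase i') r (by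
    intro j hj x hx
    obtain ⟨a, b⟩ := hr j hj
    have hji := (mem_erase.1 hj).1
    have hj0 : j ≠ 0 := by
      have := (Finset.mem_Ico.1 (mem_erase.1 hj).2).1
      omega
    rcases mem_insert.1 hx with rfl | hx
    · exact (huadj _ a (by rw [b]; exact hj0)).symm
    rcases mem_insert.1 hx with rfl | hx
    · refine (hO' _ a (by rw [b]; exact hji) ?_).symm
      intro h
      rw [h, sw_z] at b
      exact hj0 b.symm
    rcases mem_insert.1 hx with rfl | hx
    · exact g2 _ a _ hyY (by rw [b, hsy]; exact hj0)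
    · rw [mem_singleton.1 hx]
      exact g2 _ a _ hyY' (by rw [b, hcy']; exact hji)) (by
    intro j hj l hl hne
    obtain ⟨a, b⟩ := hr j hj
    obtain ⟨a', b'⟩ := hr l hl
    exact g2 _ a _ a' (by rw [b, b']; exact hne))
  have hIc : ((Finset.Ico 1 n).erase i').card = n - 2 := by
    rw [Finset.card_erase_of_mem (Finset.mem_Ico.2 ⟨by omega, hin'⟩), Nat.card_Ico]
    omega
  rw [hIc] at hs
  have h4n : 4 + (n - 2) = n + 2 := by omega
  rw [h4n] at hs
  refine hctx.ok.1 s ?_ hs
  intro x hx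
  rcases hs' x hx with h | ⟨j, hj, rfl⟩
  · rcases mem_insert.1 h with rfl | h
    · exact mem_union_right _ hu
    rcases mem_insert.1 h with rfl | h
    · exact mem_union_right _ hu'
    rcases mem_insert.1 h with rfl | h
    · exact mem_union_left _ hyY
    · rw [mem_singleton.1 h]
      exact mem_union_left _ hyY'
  · exact mem_union_left _ (hr j hj).1

end Pool.Agent.W2helper11.AF
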